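import Pool.Agent.Helper43.UN.GoalsH
import Pool.Agent.Helper50.SG.T4

/-! Packet MN2 (project UN): the exceptional shape, the pencil with `k = 2`. -/

set_option autoImplicit false

namespace Pool.Agent.Helper82.UN

open Finset Pool.Agent.Lead.Sh
open Pool.Agent.Helper43.Ah (rowsD mem_rowsD)
open Pool.Agent.Helper18.UW (lg)
open Pool.Agent.Helper18.SG (blk)
open Pool.Agent.Helper43.UN
open Helper18.Cusp (Red rr kap GoodFor Concl rr_zero)
open Helper18.Slab (Uk)
open Helper18.Flag (DR rk)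
open Helper18.Tw (rk_eq mem_DR' slab_finish)

theorem goalMN2 : GoalMN2 := by
  intro hRed hSh hT1c s m d hm hs h9 hd h7 h8 hm0 hk0
  have a01 := hm (show (0 : ℕ) ≤ 1 by norm_num)
  have a12 := hm (show (1 : ℕ) ≤ 2 by norm_num)
  have a23 := hm (show (2 : ℕ) ≤ 3 by norm_num)
  have a34 := hm (show (3 : ℕ) ≤ 4 by norm_num)
  have a45 := hm (show (4 : ℕ) ≤ 5 by norm_num)
  have a56 := hm (show (5 : ℕ) ≤ 6 by norm_num)
  have a67 := hm (show (6 : ℕ) ≤ 7 by norm_num)
  have a78 := hm (show (7 : ℕ) ≤ 8 by norm_num)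
  have a89 := hm (show (8 : ℕ) ≤ 9 by norm_num)
  have hpos : 1 ≤ 2 ^ 400 * lg (m 9) ^ 3 * m 9 := by
    have hl : 1 ≤ lg (m 9) := by unfold lg; omega
    exact Nat.one_le_iff_ne_zero.2 (Nat.mul_ne_zero (Nat.mul_ne_zero (by positivity)
      (pow_ne_zero _ (by omega))) (by omega))
  have hsum : ∑ i ∈ range 9, m i = 8 * m 0 + m 8 := by
    simp only [sum_range_succ, sum_range_zero]
    omega
  have hR : Red d m := ⟨fun i j hij _ => hm hij, by omega, by omega⟩
  have hkap : kap d m = m 0 - m 8 := by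
    unfold kap
    omega
  have hSh' : Sh (m 9) (m 9) (m 0 / 2 + 1) (2 * kap d m) 0 (blk (rr d m) 2) :=
    hSh hT1c d (m 9) m hR h9 hd h7 h8 (by omega) hm0
  have hG := hRed ∅ (Ico 9 s) m (m 9) (m 9) (m 0 / 2 + 1) (2 * kap d m) 0 (blk (rr d m) 2) hSh'
    (disjoint_empty_left _) (fun i hi => absurd hi (notMem_empty i))
    (fun i hi => hm (mem_Ico.1 hi).1) (by rw [sum_empty, mul_zero]; exact Nat.zero_le _)
  rw [empty_union] at hG
  obtain ⟨z, F, hPD, -⟩ := Pool.Agent.Helper43.Nod.hex 2 (by norm_num)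
  have hP := hPD.pencil le_rfl
  apply slab_finish hm hs (by norm_num) hP hR
  have hD : DR (Uk 2 z d m) (d + 1) = rowsD (m 0 / 2 + 1) (blk (rr d m) 2) := by
    ext x
    rw [mem_DR' hP (by norm_num) hR, rk_eq hP (by norm_num) hR, mem_rowsD]
    constructor
    · intro hx
      refine ⟨?_, hx⟩
      by_contra hcon
      have h4 : ∑ i ∈ range 2, rr d m (2 * x.2 + i) = 0 := by
        apply sum_eq_zero
        intro i _
        have h5 := (hT1c d m hR).2.2.2 hd h7 (2 * x.2 + i)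
        rw [h5, if_neg (by omega), if_neg (by omega)]
      omega
    · intro hx
      exact hx.2
  rw [hD]
  exact hG

end Pool.Agent.Helper82.UN
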